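import Pool.Agent.Helper88.SE.Goals

/-!
# Project SE (MP_69be96_nt): packet SE-T

The main theorem from the local theorem.
-/

set_option autoImplicit false

open Finset Filter Topology

open scoped Classical

namespace Pool.Agent.Helper32.SE

open Pool.Agent.Helper88.SE

theorem ev_log (c : ℝ) (hc : 0 < c) : ∀ᶠ x : ℝ in atTop, 8 * c * Real.log x ^ 2 ≤ √x := by
  have h1 : ∀ᶠ x : ℝ in atTop, ‖Real.log x‖ ≤ (1 / √(8 * c)) * ‖x ^ (1 / 4 : ℝ)‖ :=
    (isLittleO_log_rpow_atTop (r := 1 / 4) (by norm_num)).def (by positivity)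
  filter_upwards [h1, eventually_ge_atTop (1 : ℝ)] with x hx hx1
  have hx0 : 0 < x := by linarith
  have h2 : 0 ≤ Real.log x := Real.log_nonneg hx1
  rw [Real.norm_of_nonneg h2, Real.norm_of_nonneg (by positivity)] at hx
  have h3 : Real.log x ^ 2 ≤ ((1 / √(8 * c)) * x ^ (1 / 4 : ℝ)) ^ 2 :=
    pow_le_pow_left₀ h2 hx 2
  have h4 : ((1 / √(8 * c)) * x ^ (1 / 4 : ℝ)) ^ 2 = 1 / (8 * c) * √x := by
    rw [mul_pow, div_pow, Real.sq_sqrt (by positivity), one_pow, ← Real.rpow_natCast,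
      ← Real.rpow_mul hx0.le, Real.sqrt_eq_rpow]
    norm_num
  rw [h4] at h3
  calc 8 * c * Real.log x ^ 2 ≤ 8 * c * (1 / (8 * c) * √x) :=
        mul_le_mul_of_nonneg_left h3 (by positivity)
    _ = √x := by field_simp

/-- every `s` is in at most two of the double blocks -/
theorem card_bad (h : ℕ) (hh : 0 < h) (S : Finset ℤ) (I : Finset ℕ) :
    (I.filter (fun k : ℕ => ∃ s ∈ S, ((k : ℤ) - 1) * h < s ∧ s ≤ ((k : ℤ) + 1) * h)).card ≤
      2 * S.card := by
  have h1 : I.filter (fun k : ℕ => ∃ s ∈ S, ((k : ℤ) - 1) * h < s ∧ s ≤ ((k : ℤ) + 1) * h) ⊆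
      S.biUnion (fun s => {((s - 1) / (h : ℤ)).toNat, ((s - 1) / (h : ℤ) + 1).toNat}) := by
    intro k hk
    obtain ⟨_, s, hs, h2, h3⟩ := Finset.mem_filter.1 hk
    rw [Finset.mem_biUnion]
    refine ⟨s, hs, ?_⟩
    have hh' : (0 : ℤ) < h := by exact_mod_cast hh
    have h4 : (k : ℤ) - 1 ≤ (s - 1) / (h : ℤ) := by
      rw [Int.le_ediv_iff_mul_le hh']
      linarith
    have h5 : (s - 1) / (h : ℤ) < (k : ℤ) + 1 := by
      rw [Int.ediv_lt_iff_lt_mul hh']
      linarith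
    rw [Finset.mem_insert, Finset.mem_singleton]
    omega
  refine (Finset.card_le_card h1).trans ?_
  refine (Finset.card_biUnion_le_card_mul S _ 2 fun s _ => Finset.card_le_two).trans ?_
  rw [mul_comm]

theorem t (hLT : StmtLT) : StmtT := by
  obtain ⟨c, C, A, hc, hC, hA, x0, hx0⟩ := hLT
  refine ⟨c / 6, 3 * C, A + 2, by positivity, ?_⟩
  obtain ⟨X, hX⟩ := Filter.eventually_atTop.1 ((ev_log (c / 6) (by positivity)).and
    (eventually_ge_atTop (((max x0 24 : ℕ) : ℝ) ^ 2)))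
  refine ⟨X, fun x hx L hL0 hL S hS hcard => ?_⟩
  obtain ⟨h1, h2⟩ := hX x hx
  have hmax : (24 : ℝ) ≤ ((max x0 24 : ℕ) : ℝ) := by
    exact_mod_cast le_max_right x0 24
  have hx1 : (576 : ℝ) ≤ x := by nlinarith only [h2, hmax]
  have hxp : 0 < x := by linarith
  obtain ⟨h, hh⟩ : ∃ h : ℕ, h = ⌊√x⌋₊ := ⟨_, rfl⟩
  have hh1 : (h : ℝ) ≤ √x := by rw [hh]; exact Nat.floor_le (Real.sqrt_nonneg x)
  have hh2 : √x < h + 1 := by rw [hh]; exact Nat.lt_floor_add_one _
  have hh3 : max x0 24 ≤ h := by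
    rw [hh]
    exact Nat.le_floor (Real.le_sqrt_of_sq_le h2)
  have hh0 : x0 ≤ h := (le_max_left _ _).trans hh3
  have hh24 : 24 ≤ h := (le_max_right _ _).trans hh3
  have hr24 : (24 : ℝ) ≤ h := by exact_mod_cast hh24
  have hhp : (0 : ℝ) < h := by linarith only [hr24]
  have hs0 := Real.sqrt_nonneg x
  have hss := Real.sq_sqrt hxp.le
  have hsq : (h : ℝ) ^ 2 ≤ x := by nlinarith only [hss, hh1]
  have hsq2 : x < ((h : ℝ) + 1) ^ 2 := by nlinarith only [hh2, hss, hh1]
  -- logarithms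
  have hx3 : x ≤ (h : ℝ) ^ 3 := by nlinarith only [hx1, hsq2, hr24]
  have hlog : Real.log x ≤ 3 * Real.log h := by
    have := Real.log_le_log hxp hx3
    rw [Real.log_pow] at this
    exact_mod_cast this
  have hlogh : 3 ≤ Real.log h := by
    rw [Real.le_log_iff_exp_le hhp]
    have h3 : Real.exp 3 = Real.exp 1 ^ 3 := by
      rw [← Real.exp_nat_mul]; norm_num
    rw [h3]
    have h4 := Real.exp_one_lt_d9
    have h5 := Real.exp_pos 1
    calc Real.exp 1 ^ 3 ≤ 2.7182818286 ^ 3 := pow_le_pow_left₀ h5.le h4.le 3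
      _ ≤ 24 := by norm_num
      _ ≤ h := hr24
  have hlogx : 1 < Real.log x := by
    have h3 : (h : ℝ) ≤ x := by nlinarith only [hx1, hsq]
    have := Real.log_le_log hhp h3
    linarith only [hlogh, this]
  have hll : Real.log (Real.log x) ≤ 2 * Real.log (Real.log h) := by
    have h3 : Real.log x ≤ Real.log h ^ 2 := by nlinarith only [hlog, hlogh]
    have := Real.log_le_log (by linarith only [hlogx]) h3
    rw [Real.log_pow] at this
    exact_mod_cast this
  have hll0 : 0 ≤ Real.log (Real.log x) := Real.log_nonneg hlogx.le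
  have hL3 : 3 * L ≤ c * Real.log (Real.log h) := by
    have : c / 6 * Real.log (Real.log x) ≤ c / 6 * (2 * Real.log (Real.log h)) :=
      mul_le_mul_of_nonneg_left hll (by positivity)
    linarith only [hL, this]
  -- the number of the points
  have hSc : (8 : ℝ) * S.card ≤ x / h := by
    have h3 : Real.log (Real.log x) ≤ Real.log x := by
      have := Real.log_le_sub_one_of_pos (show 0 < Real.log x by linarith only [hlogx])
      linarith only [this]
    have h4 : (S.card : ℝ) ≤ c / 6 * Real.log x * Real.log x := by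
      refine hcard.trans ?_
      refine mul_le_mul_of_nonneg_right (hL.trans ?_) (by linarith only [hlogx])
      exact mul_le_mul_of_nonneg_left h3 (by positivity)
    have h5 : (8 : ℝ) * S.card ≤ √x := by nlinarith only [h1, h4]
    refine h5.trans ?_
    rw [le_div_iff₀ hhp]
    nlinarith only [hss, hsq, hh1]
  -- the blocks
  obtain ⟨k0, hk0⟩ : ∃ k0 : ℕ, k0 = ⌈x / h⌉₊ := ⟨_, rfl⟩
  obtain ⟨k1, hk1⟩ : ∃ k1 : ℕ, k1 = ⌊2 * x / h⌋₊ := ⟨_, rfl⟩
  have hk0a : x / h ≤ k0 := by rw [hk0]; exact Nat.le_ceil _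
  have hk0b : (k0 : ℝ) < x / h + 1 := by rw [hk0]; exact Nat.ceil_lt_add_one (by positivity)
  have hk1a : (k1 : ℝ) ≤ 2 * x / h := by rw [hk1]; exact Nat.floor_le (by positivity)
  have hk1b : 2 * x / h < k1 + 1 := by rw [hk1]; exact Nat.lt_floor_add_one _
  have hxh : (24 : ℝ) ≤ x / h := by
    rw [le_div_iff₀ hhp]
    nlinarith only [hsq, hr24]
  have h2xh : 2 * x / h = 2 * (x / h) := by ring
  obtain ⟨bad, hbad⟩ : ∃ bad : Finset ℕ, bad = (Finset.Ico k0 k1).filter
    (fun k : ℕ => ∃ s ∈ S, ((k : ℤ) - 1) * h < s ∧ s ≤ ((k : ℤ) + 1) * h) := ⟨_, rfl⟩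
  obtain ⟨good, hgood⟩ : ∃ good : Finset ℕ, good = (Finset.Ico k0 k1).filter
    (fun k : ℕ => ¬ ∃ s ∈ S, ((k : ℤ) - 1) * h < s ∧ s ≤ ((k : ℤ) + 1) * h) := ⟨_, rfl⟩
  have hgb : bad.card + good.card = k1 - k0 := by
    rw [hbad, hgood, Finset.card_filter_add_card_filter_not, Nat.card_Ico]
  have hbc : bad.card ≤ 2 * S.card := by
    rw [hbad]
    exact card_bad h (by omega) S _
  have hgc : x / (4 * h) ≤ good.card := by
    have h3 : (k1 : ℝ) ≤ bad.card + good.card + k0 := by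
      have : k1 ≤ bad.card + good.card + k0 := by omega
      exact_mod_cast this
    have h4 : (bad.card : ℝ) ≤ 2 * S.card := by exact_mod_cast hbc
    have h5 : x / (4 * h) = (x / h) / 4 := by field_simp
    rw [h5]
    linarith only [hSc, hk0b, hk1b, hxh, h2xh, h3, h4]
  -- the points
  obtain ⟨P, hP⟩ : ∃ P : ℕ → Finset ℕ, P = fun k : ℕ =>
    (S.filter (fun s => s ≤ ((k : ℤ) - 1) * h)).image (fun s => ((k : ℤ) * h - s).toNat) :=
    ⟨_, rfl⟩
  have hkx : ∀ k ∈ Finset.Ico k0 k1, x ≤ (k : ℝ) * h ∧ ((k : ℝ) + 1) * h ≤ 2 * x := by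
    intro k hk
    rw [Finset.mem_Ico] at hk
    have h3 : (k0 : ℝ) ≤ k := by exact_mod_cast hk.1
    have h4 : (k : ℝ) + 1 ≤ k1 := by exact_mod_cast hk.2
    constructor
    · have := hk0a.trans h3
      rwa [div_le_iff₀ hhp] at this
    · have := h4.trans hk1a
      rwa [le_div_iff₀ hhp] at this
  have hPs : ∀ k ∈ Finset.Ico k0 k1, P k ⊆ Icc h (h ^ 5) := by
    intro k hk q hq
    rw [hP] at hq
    obtain ⟨s, hs, rfl⟩ := Finset.mem_image.1 hq
    obtain ⟨hs1, hs2⟩ := Finset.mem_filter.1 hs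
    have h3 : (h : ℤ) ≤ (k : ℤ) * h - s := by linarith only [hs2]
    have h4 : (k : ℤ) * h - s ≤ (h : ℤ) ^ 5 := by
      have h5 : ((k : ℝ) * h - s) ≤ (h : ℝ) ^ 5 := by
        have h6 := (hkx k hk).2
        have h7 := (abs_le.1 (hS s hs1)).1
        have h8 : (k : ℝ) * h - s ≤ 2 * x + x ^ 2 := by linarith only [hr24, h6, h7]
        refine h8.trans ?_
        have h9 : x ≤ 4 * (h : ℝ) ^ 2 := by nlinarith only [hx1, hsq2]
        have h10 : x ^ 2 ≤ (4 * (h : ℝ) ^ 2) ^ 2 := pow_le_pow_left₀ hxp.le h9 2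
        have h11 : (1 : ℝ) ≤ (h : ℝ) ^ 2 := by nlinarith only [hx1, h9]
        have h12 : (h : ℝ) ^ 2 ≤ (h : ℝ) ^ 4 := by nlinarith only [hx1, h9]
        have h13 : (24 : ℝ) * (h : ℝ) ^ 4 ≤ (h : ℝ) ^ 5 := by
          have : (h : ℝ) ^ 5 = h * (h : ℝ) ^ 4 := by ring
          rw [this]
          exact mul_le_mul_of_nonneg_right hr24 (by positivity)
        nlinarith only [h9, h10, h12, h13]
      exact_mod_cast h5
    rw [Finset.mem_Icc]
    constructor
    · exact (Int.le_toNat (by linarith only [hh24, hs2, Int.natCast_nonneg h])).2 h3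
    · rw [Int.toNat_le]
      exact_mod_cast h4
  have hPc : ∀ k, ((P k).card : ℝ) ≤ 3 * L * Real.log h := by
    intro k
    have h3 : (P k).card ≤ S.card := by
      rw [hP]
      exact Finset.card_image_le.trans (Finset.card_filter_le _ _)
    have h4 : ((P k).card : ℝ) ≤ S.card := by exact_mod_cast h3
    refine h4.trans (hcard.trans ?_)
    have := mul_le_mul_of_nonneg_left hlog hL0
    linarith only [this]
  obtain ⟨N, hN⟩ : ∃ N : ℕ → Finset ℕ, N = fun k =>
    (Ioc 0 h).filter (fun n => ∀ q ∈ P k, ¬ (n + q).Prime) := ⟨_, rfl⟩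
  have hNc : ∀ k ∈ Finset.Ico k0 k1, h * Real.exp (-(A * Real.exp (C * (3 * L)))) ≤
      ((N k).card : ℝ) := by
    intro k hk
    rw [hN]
    exact hx0 h hh0 (3 * L) (by linarith only [hL0]) hL3 (P k) (hPs k hk) (hPc k)
  -- the map
  obtain ⟨φ, hφ⟩ : ∃ φ : (Σ _ : ℕ, ℕ) → ℤ, φ = fun u => (u.1 : ℤ) * h + u.2 := ⟨_, rfl⟩
  obtain ⟨G, hG⟩ : ∃ G : Finset (Σ _ : ℕ, ℕ), G = good.sigma N := ⟨_, rfl⟩
  have hmem : ∀ u ∈ G, u.1 ∈ good ∧ 0 < u.2 ∧ u.2 ≤ h ∧ ∀ q ∈ P u.1, ¬ (u.2 + q).Prime := by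
    intro u hu
    rw [hG, Finset.mem_sigma, hN] at hu
    obtain ⟨hu1, hu2⟩ := hu
    obtain ⟨hu3, hu4⟩ := Finset.mem_filter.1 hu2
    rw [Finset.mem_Ioc] at hu3
    exact ⟨hu1, hu3.1, hu3.2, hu4⟩
  have hinj : Set.InjOn φ (G : Set (Σ _ : ℕ, ℕ)) := by
    intro u hu v hv huv
    obtain ⟨_, hu1, hu2, _⟩ := hmem u hu
    obtain ⟨_, hv1, hv2, _⟩ := hmem v hv
    rw [hφ] at huv
    dsimp only at huv
    have huv' : u.1 * h + u.2 = v.1 * h + v.2 := by exact_mod_cast huv
    have h3 : u.1 = v.1 := by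
      rcases lt_trichotomy u.1 v.1 with h4 | h4 | h4
      · exfalso
        have : (u.1 + 1) * h ≤ v.1 * h := Nat.mul_le_mul_right h h4
        nlinarith only [huv, hu2, hv1, this]
      · exact h4
      · exfalso
        have : (v.1 + 1) * h ≤ u.1 * h := Nat.mul_le_mul_right h h4
        nlinarith only [huv, hu1, hv2, this]
    have h4 : u.2 = v.2 := by
      rw [h3] at huv'
      exact Nat.add_left_cancel huv'
    cases u
    cases v
    simp only at h3 h4
    subst h3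
    subst h4
    rfl
  obtain ⟨T, hT⟩ : ∃ T : Set ℤ, T = {n : ℤ | x < n ∧ (n : ℝ) ≤ 2 * x ∧
    ∀ s ∈ S, ∀ p : ℕ, p.Prime → n ≠ p + s} := ⟨_, rfl⟩
  rw [← hT]
  have hTf : T.Finite := by
    refine (Set.finite_Icc ⌊x⌋ ⌊2 * x⌋).subset ?_
    intro n hn
    rw [hT] at hn
    refine ⟨?_, Int.le_floor.2 hn.2.1⟩
    have h3 : (⌊x⌋ : ℝ) ≤ x := Int.floor_le x
    have h4 : (⌊x⌋ : ℝ) ≤ n := h3.trans hn.1.le
    exact_mod_cast h4
  have hsub : ((G.image φ : Finset ℤ) : Set ℤ) ⊆ T := by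
    intro n hn
    rw [Finset.mem_coe, Finset.mem_image] at hn
    obtain ⟨u, hu, rfl⟩ := hn
    obtain ⟨hu1, hu2, hu3, hu4⟩ := hmem u hu
    rw [hgood] at hu1
    obtain ⟨hu5, hu6⟩ := Finset.mem_filter.1 hu1
    obtain ⟨hu7, hu8⟩ := hkx u.1 hu5
    have hu2' : (0 : ℝ) < u.2 := by exact_mod_cast hu2
    have hu3' : (u.2 : ℝ) ≤ h := by exact_mod_cast hu3
    rw [hT, hφ]
    dsimp only
    refine ⟨?_, ?_, ?_⟩
    · push_cast
      linarith only [hu7, hu2']
    · push_cast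
      linarith only [hu8, hu3']
    · intro s hs p hp hne
      by_cases h3 : s ≤ ((u.1 : ℤ) - 1) * h
      · have h4 : ((u.1 : ℤ) * h - s).toNat ∈ P u.1 := by
          rw [hP]
          exact Finset.mem_image.2 ⟨s, Finset.mem_filter.2 ⟨hs, h3⟩, rfl⟩
        refine hu4 _ h4 ?_
        have h5 : (0 : ℤ) ≤ (u.1 : ℤ) * h - s := by
          have : (0 : ℤ) ≤ h := Int.natCast_nonneg h
          linarith only [hh24, h3]
        have h6 : u.2 + ((u.1 : ℤ) * h - s).toNat = p := by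
          have h7 : ((u.2 + ((u.1 : ℤ) * h - s).toNat : ℕ) : ℤ) = p := by
            rw [Nat.cast_add, Int.toNat_of_nonneg h5]
            linarith only [hne]
          exact_mod_cast h7
        rw [h6]
        exact hp
      · refine hu6 ⟨s, hs, not_le.1 h3, ?_⟩
        have h4 : (0 : ℤ) ≤ p := Int.natCast_nonneg p
        have h5 : (u.2 : ℤ) ≤ h := by exact_mod_cast hu3
        linarith only [hu3, hne]
  have hcardG : ((G.image φ).card : ℝ) ≤ T.ncard := by
    have h3 := Set.ncard_le_ncard hsub hTf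
    rw [Set.ncard_coe_finset] at h3
    exact_mod_cast h3
  refine le_trans ?_ hcardG
  rw [Finset.card_image_of_injOn hinj, hG, Finset.card_sigma]
  push_cast
  obtain ⟨w, hw⟩ : ∃ w : ℝ, w = Real.exp (-(A * Real.exp (C * (3 * L)))) := ⟨_, rfl⟩
  have hw0 : 0 < w := by rw [hw]; exact Real.exp_pos _
  calc x * Real.exp (-((A + 2) * Real.exp (3 * C * L)))
      ≤ x / 4 * w := by
        have h3 : -((A + 2) * Real.exp (3 * C * L)) =
            -(A * Real.exp (C * (3 * L))) + -(2 * Real.exp (3 * C * L)) := by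
          have : C * (3 * L) = 3 * C * L := by ring
          rw [this]; ring
        rw [h3, Real.exp_add, ← hw]
        have h4 : Real.exp (-(2 * Real.exp (3 * C * L))) ≤ 1 / 4 := by
          have h5 : (1 : ℝ) ≤ Real.exp (3 * C * L) := Real.one_le_exp (by positivity)
          have h6 : Real.exp (-(2 * Real.exp (3 * C * L))) ≤ Real.exp (-2) :=
            Real.exp_le_exp.2 (by linarith only [h5])
          refine h6.trans ?_
          rw [Real.exp_neg, ← one_div]
          refine one_div_le_one_div_of_le (by norm_num) ?_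
          have h7 : Real.exp 2 = Real.exp 1 ^ 2 := by
            rw [← Real.exp_nat_mul]; norm_num
          rw [h7]
          have h8 := Real.exp_one_gt_d9
          nlinarith only [h8]
        calc x * (w * Real.exp (-(2 * Real.exp (3 * C * L))))
            ≤ x * (w * (1 / 4)) := by
              refine mul_le_mul_of_nonneg_left ?_ hxp.le
              exact mul_le_mul_of_nonneg_left h4 hw0.le
          _ = x / 4 * w := by ring
    _ = x / (4 * h) * (h * w) := by field_simp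
    _ ≤ good.card * (h * w) := mul_le_mul_of_nonneg_right hgc (by positivity)
    _ = ∑ _k ∈ good, (h : ℝ) * w := by rw [Finset.sum_const, nsmul_eq_mul]
    _ ≤ ∑ k ∈ good, ((N k).card : ℝ) := by
        refine Finset.sum_le_sum fun k hk => ?_
        rw [hw]
        refine hNc k ?_
        rw [hgood] at hk
        exact (Finset.mem_filter.1 hk).1

end Pool.Agent.Helper32.SE
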